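import Pool.Agent.Lib.MP_edb5be_nt.PD.Iface

/-!
Project PD, module CCT: the numerators are rarely large.
-/

set_option autoImplicit false

namespace Pool.Agent.Lib.MP_edb5be_nt.PD.H17

open Finset Pool.Agent.Lib.MP_edb5be_nt.EX

/-- sums over the words of length `h + 1` -/
theorem sum_wds_succ (A h : ℕ) (g : List ℕ → ℝ) :
    ∑ u ∈ wds A (h + 1), g u = ∑ a ∈ Icc 1 A, ∑ u ∈ wds A h, g (a :: u) := by
  show ∑ u ∈ (Icc 1 A).biUnion (fun a => (wds A h).image (List.cons a)), g u = _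
  rw [sum_biUnion]
  · refine sum_congr rfl fun a _ => ?_
    rw [sum_image]
    intro u _ v _ huv
    exact (List.cons.inj huv).2
  · intro a _ b _ hab
    rw [Function.onFun, disjoint_left]
    intro u hu hu'
    obtain ⟨v, -, rfl⟩ := mem_image.1 hu
    obtain ⟨v', -, hv'⟩ := mem_image.1 hu'
    exact hab (List.cons.inj hv').1.symm

/-- the geometric sum -/
theorem geo (r : ℝ) (hr : 0 ≤ r) (hr1 : r < 1) (A : ℕ) : ∑ a ∈ Icc 1 A, r ^ a ≤ r / (1 - r) := by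
  have h1 : ∀ A : ℕ, (1 - r) * ∑ a ∈ Icc 1 A, r ^ a = r - r ^ (A + 1) := by
    intro A
    induction A with
    | zero => simp
    | succ A ih =>
      rw [sum_Icc_succ_top (by omega), mul_add, ih]
      ring
  have h2 : 0 < 1 - r := by linarith
  rw [le_div_iff₀ h2, mul_comm, h1 A]
  have h3 : 0 ≤ r ^ (A + 1) := pow_nonneg hr _
  linarith

/-- the total probability -/
theorem pr_le_one (A h : ℕ) : ∑ u ∈ wds A h, (1 : ℝ) / 2 ^ u.sum ≤ 1 := by
  induction h with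
  | zero =>
    show ∑ u ∈ ({[]} : Finset (List ℕ)), (1 : ℝ) / 2 ^ u.sum ≤ 1
    rw [sum_singleton]
    simp
  | succ h ih =>
    rw [sum_wds_succ]
    have h1 : ∑ a ∈ Icc 1 A, ∑ u ∈ wds A h, (1 : ℝ) / 2 ^ (a :: u).sum =
        (∑ a ∈ Icc 1 A, (1 / 2 : ℝ) ^ a) * ∑ u ∈ wds A h, (1 : ℝ) / 2 ^ u.sum := by
      rw [sum_mul_sum]
      refine sum_congr rfl fun a _ => sum_congr rfl fun u _ => ?_
      rw [List.sum_cons, pow_add, one_div_pow, one_div_mul_one_div]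
    rw [h1]
    have h2 := geo (1 / 2) (by norm_num) (by norm_num) A
    norm_num at h2
    have h3 : 0 ≤ ∑ u ∈ wds A h, (1 : ℝ) / 2 ^ u.sum := sum_nonneg fun u _ => by positivity
    calc (∑ a ∈ Icc 1 A, (1 / 2 : ℝ) ^ a) * ∑ u ∈ wds A h, (1 : ℝ) / 2 ^ u.sum
        ≤ 1 * ∑ u ∈ wds A h, (1 : ℝ) / 2 ^ u.sum := by
          refine mul_le_mul_of_nonneg_right ?_ h3
          norm_num
          exact h2
      _ ≤ 1 := by linarith

/-- the numerator divided by the power of two -/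
noncomputable def Cq (u : List ℕ) : ℝ := (cc u : ℝ) / 2 ^ u.sum

theorem Cq_nonneg (u : List ℕ) : 0 ≤ Cq u := by unfold Cq; positivity

theorem Cq_cons (a : ℕ) (u : List ℕ) : Cq (a :: u) = (1 / 2 : ℝ) ^ a * (1 + 3 * Cq u) := by
  unfold Cq
  have h1 : cc (a :: u) = 2 ^ u.sum + 3 * cc u := rfl
  rw [h1, List.sum_cons, pow_add, one_div_pow]
  push_cast
  have h2 : (2 : ℝ) ^ u.sum ≠ 0 := by positivity
  have h3 : (2 : ℝ) ^ a ≠ 0 := by positivity
  field_simp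

/-- the square roots -/
theorem sqrt_cons (a : ℕ) (u : List ℕ) :
    √(Cq (a :: u)) ≤ (√(1 / 2)) ^ a * (1 + √3 * √(Cq u)) := by
  have hC := Cq_nonneg u
  rw [Cq_cons]
  refine Real.sqrt_le_iff.2 ⟨by positivity, ?_⟩
  rw [mul_pow, ← pow_mul, mul_comm a 2, pow_mul, Real.sq_sqrt (by norm_num)]
  refine mul_le_mul_of_nonneg_left ?_ (by positivity)
  have h1 : (√3 * √(Cq u)) ^ 2 = 3 * Cq u := by
    rw [mul_pow, Real.sq_sqrt (by norm_num), Real.sq_sqrt hC]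
  have h2 : 0 ≤ √3 * √(Cq u) := by positivity
  nlinarith

/-- the mean of the square roots -/
theorem mean_sqrt (A h : ℕ) : ∑ u ∈ wds A h, (1 : ℝ) / 2 ^ u.sum * √(Cq u) ≤ 11 := by
  obtain ⟨q, hq⟩ : ∃ q, q = √(1 / 2 : ℝ) := ⟨_, rfl⟩
  have hq0 : 0 < q := by rw [hq]; positivity
  have hq2 : q ^ 2 = 1 / 2 := by rw [hq]; exact Real.sq_sqrt (by norm_num)
  obtain ⟨v, hv⟩ : ∃ v, v = √(3 : ℝ) := ⟨_, rfl⟩
  have hv0 : 0 < v := by rw [hv]; positivity
  have hv2 : v ^ 2 = 3 := by rw [hv]; exact Real.sq_sqrt (by norm_num)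
  have hqb : q ≤ 0.70711 := by
    by_contra hc
    rw [not_le] at hc
    nlinarith
  have hvb : v ≤ 1.73206 := by
    by_contra hc
    rw [not_le] at hc
    nlinarith
  induction h with
  | zero =>
    show ∑ u ∈ ({[]} : Finset (List ℕ)), (1 : ℝ) / 2 ^ u.sum * √(Cq u) ≤ 11
    rw [sum_singleton]
    have h1 : Cq [] = 0 := by
      unfold Cq
      have : cc [] = 0 := rfl
      rw [this]
      simp
    rw [h1, Real.sqrt_zero, mul_zero]
    norm_num
  | succ h ih =>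
    rw [sum_wds_succ]
    have h1 : ∑ a ∈ Icc 1 A, ∑ u ∈ wds A h, (1 : ℝ) / 2 ^ (a :: u).sum * √(Cq (a :: u)) ≤
        (∑ a ∈ Icc 1 A, (q / 2) ^ a) *
          ∑ u ∈ wds A h, (1 : ℝ) / 2 ^ u.sum * (1 + v * √(Cq u)) := by
      rw [sum_mul_sum]
      refine sum_le_sum fun a _ => sum_le_sum fun u _ => ?_
      have h2 := sqrt_cons a u
      rw [← hq, ← hv] at h2
      rw [List.sum_cons, pow_add]
      calc (1 : ℝ) / (2 ^ a * 2 ^ u.sum) * √(Cq (a :: u))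
          ≤ 1 / (2 ^ a * 2 ^ u.sum) * (q ^ a * (1 + v * √(Cq u))) := by gcongr
        _ = (q / 2) ^ a * (1 / 2 ^ u.sum * (1 + v * √(Cq u))) := by
          rw [div_pow]
          have h3 : (2 : ℝ) ^ u.sum ≠ 0 := by positivity
          have h4 : (2 : ℝ) ^ a ≠ 0 := by positivity
          field_simp
    have h2 : ∑ u ∈ wds A h, (1 : ℝ) / 2 ^ u.sum * (1 + v * √(Cq u)) =
        ∑ u ∈ wds A h, (1 : ℝ) / 2 ^ u.sum +
          v * ∑ u ∈ wds A h, (1 : ℝ) / 2 ^ u.sum * √(Cq u) := by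
      rw [mul_sum, ← sum_add_distrib]
      refine sum_congr rfl fun u _ => ?_
      ring
    have h3 : ∑ u ∈ wds A h, (1 : ℝ) / 2 ^ u.sum * (1 + v * √(Cq u)) ≤ 1 + v * 11 := by
      rw [h2]
      have h4 := pr_le_one A h
      have h5 := mul_le_mul_of_nonneg_left ih hv0.le
      linarith
    have h4 := geo (q / 2) (by positivity) (by linarith) A
    have h5 : q / 2 / (1 - q / 2) ≤ 0.547 := by
      rw [div_le_iff₀ (by linarith)]
      linarith
    have h6 : 0 ≤ ∑ u ∈ wds A h, (1 : ℝ) / 2 ^ u.sum * (1 + v * √(Cq u)) :=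
      sum_nonneg fun u _ => by positivity
    calc ∑ a ∈ Icc 1 A, ∑ u ∈ wds A h, (1 : ℝ) / 2 ^ (a :: u).sum * √(Cq (a :: u))
        ≤ (∑ a ∈ Icc 1 A, (q / 2) ^ a) *
          ∑ u ∈ wds A h, (1 : ℝ) / 2 ^ u.sum * (1 + v * √(Cq u)) := h1
      _ ≤ 0.547 * (1 + v * 11) := mul_le_mul (h4.trans h5) h3 h6 (by norm_num)
      _ ≤ 11 := by linarith

/-- CCT -/
theorem cct : CcTStatement := by
  intro Γ A h hΓ
  have hΓ0 : (0 : ℝ) < Γ := by exact_mod_cast hΓ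
  have hs : 0 < √(Γ : ℝ) := Real.sqrt_pos.2 hΓ0
  rw [le_div_iff₀ hs]
  unfold pr
  rw [sum_mul]
  calc ∑ u ∈ (wds A h).filter (fun u => ¬ (cc u ≤ Γ * 2 ^ u.sum)), (1 : ℝ) / 2 ^ u.sum * √(Γ : ℝ)
      ≤ ∑ u ∈ (wds A h).filter (fun u => ¬ (cc u ≤ Γ * 2 ^ u.sum)),
          (1 : ℝ) / 2 ^ u.sum * √(Cq u) := by
        refine sum_le_sum fun u hu => ?_
        rw [mem_filter] at hu
        refine mul_le_mul_of_nonneg_left (Real.sqrt_le_sqrt ?_) (by positivity)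
        have h1 : Γ * 2 ^ u.sum < cc u := not_le.1 hu.2
        have h2 : (Γ : ℝ) * 2 ^ u.sum < cc u := by exact_mod_cast h1
        unfold Cq
        rw [le_div_iff₀ (by positivity)]
        exact h2.le
    _ ≤ ∑ u ∈ wds A h, (1 : ℝ) / 2 ^ u.sum * √(Cq u) := by
        refine sum_le_sum_of_subset_of_nonneg (filter_subset _ _) fun u _ _ => by positivity
    _ ≤ 11 := mean_sqrt A h

end Pool.Agent.Lib.MP_edb5be_nt.PD.H17
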