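import Pool.Agent.Lib.MP_edb5be_nt.PD.Iface

/-!
Project PD, module CLASS: a residue class in which the sums do not tend to zero.
-/

set_option autoImplicit false

namespace Pool.Agent.Lib.MP_edb5be_nt.PD.H17

/-- CLASS -/
theorem clas (h1 : WGwStatement) (h2 : InductStatement) (h3 : BaseStatement) :
    ClassStatement := by
  obtain ⟨Γ, N₁, hB⟩ := h3
  obtain ⟨N₀, hI⟩ := h2 Γ
  obtain ⟨N, hN, hN0, hN1⟩ : ∃ N : ℕ, 20 ≤ N ∧ N₀ ≤ N ∧ N₁ ≤ N :=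
    ⟨20 + N₀ + N₁, by omega, by omega, by omega⟩
  obtain ⟨y₀, hy0, hy⟩ := hB N hN1
  exact ⟨Γ, N, N + N / 20, y₀, hN, hy0, fun y hyy t =>
    ⟨h1 Γ N t hN, hI N hN0 y (hy y hyy) t⟩⟩

end Pool.Agent.Lib.MP_edb5be_nt.PD.H17
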