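import Pool.Agent.Lib.MP_edb5be_nt.PD.Iface

/-!
Project PD, module GCAT: the conditions `GW` for concatenations.
-/

set_option autoImplicit false

namespace Pool.Agent.Lib.MP_edb5be_nt.PD.H17

open Finset Pool.Agent.Lib.MP_edb5be_nt.EX

/-- the numerical inequality -/
theorem gcat_num (n j s : ℕ) (hj : 10 * j ≤ n) (hs : 199 * n ≤ 100 * s) :
    3 ^ n * 3 ^ j * 5 ^ n ≤ 4 ^ n * 2 ^ s * 2 ^ j := by
  have e0 : (2 : ℕ) ^ 409 = 2 ^ 200 * 2 ^ 209 := by rw [← pow_add]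
  have e1 : (3 ^ 110 * 5 ^ 100) ^ n ≤ (2 ^ 409) ^ n :=
    Nat.pow_le_pow_left (by rw [e0]; norm_num) n
  have e2 : (2 : ℕ) ^ (199 * n) ≤ 2 ^ (100 * s) := Nat.pow_le_pow_right (by norm_num) hs
  have e3 : 3 ^ (100 * n + 100 * j) * 2 ^ (10 * n) ≤ 3 ^ (110 * n) * 2 ^ (100 * j) := by
    obtain ⟨d, rfl⟩ : ∃ d, n = 10 * j + d := ⟨n - 10 * j, by omega⟩
    have h1 : 100 * (10 * j + d) + 100 * j = 1100 * j + 100 * d := by ring
    have h2 : 10 * (10 * j + d) = 100 * j + 10 * d := by ring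
    have h3 : 110 * (10 * j + d) = 1100 * j + 100 * d + 10 * d := by ring
    rw [h1, h2, h3, pow_add 2 (100 * j), pow_add 3 (1100 * j + 100 * d)]
    have h4 : (2 : ℕ) ^ (10 * d) ≤ 3 ^ (10 * d) := Nat.pow_le_pow_left (by norm_num) _
    calc 3 ^ (1100 * j + 100 * d) * (2 ^ (100 * j) * 2 ^ (10 * d))
        ≤ 3 ^ (1100 * j + 100 * d) * (2 ^ (100 * j) * 3 ^ (10 * d)) := by gcongr
      _ = 3 ^ (1100 * j + 100 * d) * 3 ^ (10 * d) * 2 ^ (100 * j) := by ring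
  have e4 : (3 ^ n * 3 ^ j * 5 ^ n) ^ 100 ≤ (4 ^ n * 2 ^ s * 2 ^ j) ^ 100 := by
    have h5 : 0 < (2 : ℕ) ^ (10 * n) := by positivity
    refine Nat.le_of_mul_le_mul_right ?_ h5
    calc (3 ^ n * 3 ^ j * 5 ^ n) ^ 100 * 2 ^ (10 * n)
        = 3 ^ (100 * n + 100 * j) * 2 ^ (10 * n) * 5 ^ (100 * n) := by
          rw [mul_pow, mul_pow, ← pow_mul, ← pow_mul, ← pow_mul, pow_add,
            mul_comm n 100, mul_comm j 100]
          ring
      _ ≤ 3 ^ (110 * n) * 2 ^ (100 * j) * 5 ^ (100 * n) := Nat.mul_le_mul_right _ e3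
      _ = (3 ^ 110 * 5 ^ 100) ^ n * 2 ^ (100 * j) := by
          rw [mul_pow, ← pow_mul, ← pow_mul]
          ring
      _ ≤ (2 ^ 409) ^ n * 2 ^ (100 * j) := Nat.mul_le_mul_right _ e1
      _ = 2 ^ (200 * n) * 2 ^ (199 * n) * 2 ^ (100 * j) * 2 ^ (10 * n) := by
          rw [← pow_mul, ← pow_add, ← pow_add, ← pow_add, ← pow_add]
          congr 1
          ring
      _ ≤ 2 ^ (200 * n) * 2 ^ (100 * s) * 2 ^ (100 * j) * 2 ^ (10 * n) := by gcongr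
      _ = (4 ^ n * 2 ^ s * 2 ^ j) ^ 100 * 2 ^ (10 * n) := by
          have h6 : (4 : ℕ) ^ n = 2 ^ (2 * n) := by
            rw [pow_mul]
            norm_num
          rw [h6, mul_pow, mul_pow, ← pow_mul, ← pow_mul, ← pow_mul]
          have h7 : 2 * n * 100 = 200 * n := by ring
          rw [h7, mul_comm s 100, mul_comm j 100]
  exact (Nat.pow_le_pow_iff_left (by norm_num)).1 e4

/-- GCAT -/
theorem gcat (h1 : WordsStatement) : GCatStatement := by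
  obtain ⟨hmem, happ, hcc, -, -⟩ := h1
  intro Γ n j W hΓ hW hj
  have key : ∀ u ∈ cat W (Rw j), ∃ w ∈ W, ∃ w' : List ℕ, w'.length = j ∧ (∀ a ∈ w', 1 ≤ a) ∧
      199 * j ≤ 100 * w'.sum ∧ 100 * w'.sum ≤ 201 * j ∧ u = w ++ w' := by
    intro u hu
    unfold cat at hu
    rw [mem_image] at hu
    obtain ⟨⟨w, w'⟩, hp, rfl⟩ := hu
    rw [mem_product] at hp
    obtain ⟨hw, hw'⟩ := hp
    unfold Rw at hw'
    rw [mem_filter] at hw'
    obtain ⟨h2, h3, h4⟩ := hw'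
    obtain ⟨h5, h6⟩ := (hmem _ _ _).1 h2
    exact ⟨w, hw, w', h5, fun a ha => (h6 a ha).1, h3, h4, rfl⟩
  refine ⟨?_, ?_, ?_, ?_, ?_⟩
  · intro u hu
    obtain ⟨w, hw, w', h2, h3, h4, h5, rfl⟩ := key u hu
    rw [List.length_append, hW.len w hw, h2]
  · intro u hu
    obtain ⟨w, hw, w', h2, h3, h4, h5, rfl⟩ := key u hu
    intro a ha
    rcases List.mem_append.1 ha with h | h
    · exact hW.pos w hw a h
    · exact h3 a h
  · intro u hu
    obtain ⟨w, hw, w', h2, h3, h4, h5, rfl⟩ := key u hu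
    have h6 := hW.lo w hw
    rw [List.sum_append]
    omega
  · intro u hu
    obtain ⟨w, hw, w', h2, h3, h4, h5, rfl⟩ := key u hu
    have h6 := hW.hi w hw
    rw [List.sum_append]
    omega
  · intro u hu
    obtain ⟨w, hw, w', h2, h3, h4, h5, rfl⟩ := key u hu
    have hlo := hW.lo w hw
    have hcb := hW.cb w hw
    have hlen := hW.len w hw
    have hc' : cc w' * 2 ^ j ≤ 2 ^ w'.sum * 3 ^ j := by
      have h6 := hcc w' h3
      rw [h2] at h6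
      exact h6.trans (Nat.mul_le_mul_left _ (Nat.sub_le _ _))
    have hnum := gcat_num n j w.sum hj hlo
    have hc'R : (cc w' : ℝ) * 2 ^ j ≤ 2 ^ w'.sum * 3 ^ j := by exact_mod_cast hc'
    have hnumR : (3 : ℝ) ^ n * 3 ^ j * 5 ^ n ≤ 4 ^ n * 2 ^ w.sum * 2 ^ j := by
      exact_mod_cast hnum
    rw [happ, hlen, List.sum_append, pow_add]
    push_cast
    have h7 : (3 : ℝ) ^ n * cc w' ≤ (4 / 5) ^ n * (2 ^ w.sum * 2 ^ w'.sum) := by
      have h8 : (0 : ℝ) < 2 ^ j * 5 ^ n := by positivity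
      refine le_of_mul_le_mul_right ?_ h8
      calc (3 : ℝ) ^ n * cc w' * (2 ^ j * 5 ^ n) = 3 ^ n * 5 ^ n * (cc w' * 2 ^ j) := by ring
        _ ≤ 3 ^ n * 5 ^ n * (2 ^ w'.sum * 3 ^ j) := by gcongr
        _ = 3 ^ n * 3 ^ j * 5 ^ n * 2 ^ w'.sum := by ring
        _ ≤ 4 ^ n * 2 ^ w.sum * 2 ^ j * 2 ^ w'.sum := by gcongr
        _ = (4 / 5) ^ n * (2 ^ w.sum * 2 ^ w'.sum) * (2 ^ j * 5 ^ n) := by
          rw [div_pow]
          field_simp
    calc (2 : ℝ) ^ w'.sum * cc w + 3 ^ n * cc w'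
        ≤ 2 ^ w'.sum * (Γ * 2 ^ w.sum) + (4 / 5) ^ n * (2 ^ w.sum * 2 ^ w'.sum) := by gcongr
      _ = (Γ + (4 / 5) ^ n) * (2 ^ w.sum * 2 ^ w'.sum) := by ring

end Pool.Agent.Lib.MP_edb5be_nt.PD.H17
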